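import Pool.Agent.Q212.RK

/-!
# MP_55c7a7: weak P-points generate free semigroups under the tensor product

If `A` is a set of pairwise non-isomorphic weak P-points, then `a₁ ⊗ ⋯ ⊗ aₘ ≅ b₁ ⊗ ⋯ ⊗ bₙ` with
all `aᵢ, bⱼ ∈ A` implies `m = n` and `aᵢ = bᵢ` for all `i`.
-/

open Set

namespace Pool.Agent.Results.MP_55c7a7_lc.FreeProducts

open Pool.Agent.Q212.RK

/-- The tensor product `u ⊗ v`, transferred to `ℕ` by the bijection `e : ℕ × ℕ ≃ ℕ`. -/
def tens (e : ℕ × ℕ ≃ ℕ) (u v : Ultrafilter ℕ) : Ultrafilter ℕ := (tensor u v).map e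

/-- The product `a₁ ⊗ (a₂ ⊗ (⋯ ⊗ aₘ))` of a nonempty word (the empty word gets a dummy value). -/
def word (e : ℕ × ℕ ≃ ℕ) : List (Ultrafilter ℕ) → Ultrafilter ℕ
  | [] => pure 0
  | [a] => a
  | a :: b :: l => tens e a (word e (b :: l))

theorem iso_tens (e : ℕ × ℕ ≃ ℕ) (u v : Ultrafilter ℕ) : Iso (tens e u v) (tensor u v) := by
  refine ⟨⟨e, rfl⟩, ⟨e.symm, ?_⟩⟩
  rw [tens, Ultrafilter.map_map, Equiv.symm_comp_self, Ultrafilter.map_id]

theorem iso_tensor_pure (u : Ultrafilter ℕ) : Iso u (tensor u (pure 0 : Ultrafilter ℕ)) := by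
  refine ⟨⟨Prod.fst, (tensor_fst u _).symm⟩, ⟨fun n => (n, 0), ?_⟩⟩
  exact Ultrafilter.ext fun A => Iff.rfl

theorem not_iso_pure {u : Ultrafilter ℕ} (hu : NonPrincipal u) : ¬ Iso (pure 0 : Ultrafilter ℕ) u := by
  rintro ⟨-, ⟨f, hf⟩⟩
  exact hu (f 0) hf

theorem nonPrincipal_of_le {u v : Ultrafilter ℕ} (hu : NonPrincipal u) (h : LE u v) :
    NonPrincipal v := by
  obtain ⟨f, rfl⟩ := h
  rintro n rfl
  exact hu (f n) rfl

theorem nonPrincipal_word (e : ℕ × ℕ ≃ ℕ) (a : Ultrafilter ℕ) (l : List (Ultrafilter ℕ))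
    (ha : NonPrincipal a) : NonPrincipal (word e (a :: l)) := by
  cases l with
  | nil => exact ha
  | cons b l =>
    refine nonPrincipal_of_le ha (LE.trans ⟨Prod.fst, (tensor_fst a _).symm⟩ (iso_tens e _ _).2)

theorem cancel_tens (e : ℕ × ℕ ≃ ℕ) {a b : Ultrafilter ℕ} (ha : WeakPPoint a) (hb : WeakPPoint b)
    {w w' : Ultrafilter ℕ} (h : Iso (tens e a w) (tens e b w')) : Iso a b ∧ Iso w w' :=
  cancel ha hb (((iso_tens e a w).symm.trans h).trans (iso_tens e b w'))

/-- **Main theorem** (positive answer to Q1, for every fixed bijection `e : ℕ × ℕ ≃ ℕ`). Let `A` be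
a set of weak P-points no two of which are isomorphic (in particular, `A` may be any set of pairwise
Rudin-Keisler incomparable weak P-points). Then `A` generates a free semigroup up to isomorphism:
isomorphic nonempty products of elements of `A` have the same factors in the same order. -/
theorem result (e : ℕ × ℕ ≃ ℕ) (A : Set (Ultrafilter ℕ)) (hA : ∀ a ∈ A, WeakPPoint a)
    (hinc : ∀ a ∈ A, ∀ b ∈ A, a ≠ b → ¬ Iso a b)
    (l l' : List (Ultrafilter ℕ)) (hl : l ≠ []) (hl' : l' ≠ [])
    (hlA : ∀ a ∈ l, a ∈ A) (hlA' : ∀ a ∈ l', a ∈ A)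
    (h : Iso (word e l) (word e l')) : l = l' := by
  have hinc' : ∀ a ∈ A, ∀ b ∈ A, Iso a b → a = b := by
    intro a ha b hb hab
    by_contra hne
    exact hinc a ha b hb hne hab
  -- a single factor against a longer word
  have hsingle : ∀ a ∈ A, ∀ b ∈ A, ∀ c ∈ A, ∀ t : List (Ultrafilter ℕ),
      ¬ Iso (word e [a]) (word e (b :: c :: t)) := by
    intro a ha b hb c hc t hiso
    have h1 : Iso (tensor a (pure 0 : Ultrafilter ℕ)) (tensor b (word e (c :: t))) :=
      ((iso_tensor_pure a).symm.trans hiso).trans (iso_tens e b _)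
    exact not_iso_pure (nonPrincipal_word e c t (hA c hc).1) (cancel (hA a ha) (hA b hb) h1).2
  induction l generalizing l' with
  | nil => exact absurd rfl hl
  | cons a t ih =>
    cases l' with
    | nil => exact absurd rfl hl'
    | cons b t' =>
      have ha : a ∈ A := hlA a (List.mem_cons_self)
      have hb : b ∈ A := hlA' b (List.mem_cons_self)
      cases t with
      | nil =>
        cases t' with
        | nil => rw [hinc' a ha b hb h]
        | cons c t' =>
          exact absurd h (hsingle a ha b hb c (hlA' c (by simp)) t')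
      | cons c t =>
        cases t' with
        | nil =>
          exact absurd h.symm (hsingle b hb a ha c (hlA c (by simp)) t)
        | cons d t' =>
          obtain ⟨h1, h2⟩ := cancel_tens e (hA a ha) (hA b hb) h
          rw [hinc' a ha b hb h1, ih (d :: t') (by simp) (by simp)
            (fun x hx => hlA x (List.mem_cons_of_mem _ hx))
            (fun x hx => hlA' x (List.mem_cons_of_mem _ hx)) h2]

end Pool.Agent.Results.MP_55c7a7_lc.FreeProducts
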